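import Pool.Agent.W924.Br3

/-!
# Strong Choquet topologies with a well-orderable base on invariant coanalytic sets

In every model of Zermelo set theory (so in every model of ZF, and in every model of ZF + AD):
for every Polish group `g` that acts continuously on a Polish space `x` and every invariant
coanalytic subset `p` of `x` there is a topology `t` on `p` that is finer than the original one,
is strong Choquet, has a well-orderable base, and makes the action of `g` on `p` continuous.
-/

namespace Pool.Agent.Results.MP_204fd0_lc.TopologyInZF

open FirstOrder FirstOrder.Language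
open Pool.Agent.Helper672.Plain (LSet Mem Zermelo El)
open Pool.Agent.H310Top (IsTopology IsBase)
open Pool.Agent.W924St

universe u

theorem result (M : Type u) [LSet.Structure M] [Zermelo M] (g tg x tx p : M) [Group (El g)]
    [MulAction (El g) (El x)] (hG : IsPolishGroup tg g) (hX : IsPolish tx x)
    (hA : IsCtsAction tg g tx x) (hp : IsCoanalytic p tx x)
    (hinv : ∀ (a : El g) (y : El x), Mem y.1 p → Mem (a • y).1 p) :
    ∃ t, IsTopology t p ∧ IsFiner t p tx ∧ IsStrongChoquet t p ∧
      (∃ b, IsBase b t ∧ IsWellOrderable b) ∧ IsCtsOn tg g x t p :=
  Pool.Agent.W924.main hG hX hA hp hinv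

end Pool.Agent.Results.MP_204fd0_lc.TopologyInZF
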